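import Pool.Agent.K3h75.NW.StmAW

/-! Brick PBW of the project NW: weighted forms and polynomials. -/

set_option autoImplicit false

namespace Pool.Agent.K3h87.NW

open MvPolynomial Pool.Agent.R187.WC Pool.Agent.K3h75.NW

/-- drop the exponent of `some 0` -/
noncomputable def tl {n : ℕ} (s : Option (Fin (n + 1)) →₀ ℕ) : Option (Fin n) →₀ ℕ :=
  Finsupp.equivFunOnFinite.symm fun o => o.elim (s none) fun i => s (some i.succ)

/-- insert the exponent of `some 0` -/
noncomputable def cs {n : ℕ} (b : ℕ) (t : Option (Fin n) →₀ ℕ) : Option (Fin (n + 1)) →₀ ℕ :=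
  Finsupp.equivFunOnFinite.symm fun o => o.elim (t none)
    (Fin.cases (motive := fun _ => ℕ) b fun i => t (some i))

/-- the weight -/
def W {n : ℕ} (e : ℕ) (t : Option (Fin n) →₀ ℕ) : ℕ := t none * e + ∑ j, t (some j)

theorem tl_none {n : ℕ} (s : Option (Fin (n + 1)) →₀ ℕ) : tl s none = s none := rfl

theorem tl_some {n : ℕ} (s : Option (Fin (n + 1)) →₀ ℕ) (i : Fin n) :
    tl s (some i) = s (some i.succ) := rfl

theorem cs_none {n : ℕ} (b : ℕ) (t : Option (Fin n) →₀ ℕ) : cs b t none = t none := rfl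

theorem cs_zero {n : ℕ} (b : ℕ) (t : Option (Fin n) →₀ ℕ) : cs b t (some 0) = b := rfl

theorem cs_succ {n : ℕ} (b : ℕ) (t : Option (Fin n) →₀ ℕ) (i : Fin n) :
    cs b t (some i.succ) = t (some i) := rfl

theorem tl_cs {n : ℕ} (b : ℕ) (t : Option (Fin n) →₀ ℕ) : tl (cs b t) = t := by
  ext o
  rcases o with _ | i
  · rfl
  · rfl

theorem cs_tl {n : ℕ} (s : Option (Fin (n + 1)) →₀ ℕ) : cs (s (some 0)) (tl s) = s := by
  ext o
  rcases o with _ | i
  · rfl
  · refine Fin.cases ?_ (fun j => ?_) i
    · rfl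
    · rfl

theorem weight_tl {n : ℕ} (e : ℕ) (s : Option (Fin (n + 1)) →₀ ℕ) :
    Finsupp.weight (wt e) s = W e (tl s) + s (some 0) := by
  rw [weight_eq]
  unfold W
  rw [Fin.sum_univ_succ, tl_none]
  simp only [tl_some]
  ring

theorem tl_single {n : ℕ} (m : ℕ) :
    tl (Finsupp.single none m : Option (Fin (n + 1)) →₀ ℕ) = Finsupp.single none m := by
  ext o
  rcases o with _ | i
  · rw [tl_none, Finsupp.single_eq_same, Finsupp.single_eq_same]
  · rw [tl_some, Finsupp.single_eq_of_ne (by simp), Finsupp.single_eq_of_ne (by simp)]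

theorem cs_single {n : ℕ} (m : ℕ) :
    cs 0 (Finsupp.single none m : Option (Fin n) →₀ ℕ) = Finsupp.single none m := by
  have h := cs_tl (Finsupp.single none m : Option (Fin (n + 1)) →₀ ℕ)
  rw [tl_single, Finsupp.single_eq_of_ne (by simp)] at h
  exact h

theorem W_single {n : ℕ} (e m : ℕ) :
    W e (Finsupp.single none m : Option (Fin n) →₀ ℕ) = m * e := by
  unfold W
  rw [Finsupp.single_eq_same, Finset.sum_eq_zero, add_zero]
  intro j _
  rw [Finsupp.single_eq_of_ne (by simp)]

theorem dhW_monomial {R : Type} [CommRing R] {n : ℕ} (s : Option (Fin (n + 1)) →₀ ℕ) (c : R) :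
    dhW (monomial s c) = monomial (tl s) c := by
  unfold dhW
  rw [aeval_monomial, Finsupp.prod_fintype _ _ (fun i => pow_zero _), Fintype.prod_option,
    Fin.prod_univ_succ, monomial_eq, Finsupp.prod_fintype _ _ (fun i => pow_zero _),
    Fintype.prod_option]
  simp [MvPolynomial.algebraMap_eq, tl_none, tl_some]

theorem dhW_sum {R : Type} [CommRing R] {n : ℕ} {κ : Type} (T : Finset κ)
    (F : κ → MvPolynomial (Option (Fin (n + 1))) R) : dhW (∑ t ∈ T, F t) = ∑ t ∈ T, dhW (F t) := by
  unfold dhW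
  rw [map_sum]

theorem coeff_dhW {R : Type} [CommRing R] {n e d : ℕ}
    (G : MvPolynomial (Option (Fin (n + 1))) R) (hG : G.IsWeightedHomogeneous (wt e) d)
    (t : Option (Fin n) →₀ ℕ) :
    (dhW G).coeff t = if W e t ≤ d then G.coeff (cs (d - W e t) t) else 0 := by
  classical
  have h1 : dhW G = ∑ s ∈ G.support, monomial (tl s) (G.coeff s) := by
    conv_lhs => rw [← support_sum_monomial_coeff G]
    rw [dhW_sum]
    exact Finset.sum_congr rfl fun s _ => dhW_monomial s _
  rw [h1, coeff_sum]
  simp only [coeff_monomial]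
  have hkey : ∀ s ∈ G.support, tl s = t → W e t ≤ d ∧ s = cs (d - W e t) t := by
    intro s hs hse
    have h2 : Finsupp.weight (wt e) s = d := by
      by_contra h3
      exact (mem_support_iff.1 hs) (hG.coeff_eq_zero s h3)
    have h3 := weight_tl e s
    rw [hse, h2] at h3
    refine ⟨by omega, ?_⟩
    have h4 : d - W e t = s (some 0) := by omega
    rw [h4, ← hse, cs_tl]
  by_cases he : W e t ≤ d
  · rw [if_pos he]
    rw [Finset.sum_eq_single (cs (d - W e t) t)]
    · rw [tl_cs, if_pos rfl]
    · intro s hs hne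
      rw [if_neg]
      intro hse
      exact hne (hkey s hs hse).2
    · intro hns
      rw [tl_cs, if_pos rfl]
      exact notMem_support_iff.1 hns
  · rw [if_neg he]
    refine Finset.sum_eq_zero fun s hs => ?_
    rw [if_neg]
    intro hse
    exact he (hkey s hs hse).1

theorem coeff_of_dhW {R : Type} [CommRing R] {n e d : ℕ}
    (G : MvPolynomial (Option (Fin (n + 1))) R) (hG : G.IsWeightedHomogeneous (wt e) d)
    (s : Option (Fin (n + 1)) →₀ ℕ) :
    G.coeff s = if Finsupp.weight (wt e) s = d then (dhW G).coeff (tl s) else 0 := by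
  split_ifs with h
  · have h1 := weight_tl e s
    rw [coeff_dhW G hG, if_pos (by omega)]
    have h2 : d - W e (tl s) = s (some 0) := by omega
    rw [h2, cs_tl]
  · exact hG.coeff_eq_zero s h

theorem t_PBW : S_PBW := by
  classical
  intro O ι _ _ ω n e m H he
  refine ⟨?_, ?_, ?_⟩
  · rintro G ⟨⟨hG, h1⟩, hc⟩
    refine ⟨?_, ?_, ?_⟩
    · intro t ht
      rw [coeff_dhW G hG] at ht
      by_contra h3
      exact ht (if_neg h3)
    · rw [coeff_dhW G hG, W_single, if_pos le_rfl, Nat.sub_self, cs_single]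
      exact h1
    · intro t ht i
      rw [coeff_dhW G hG]
      split_ifs
      · apply hc
        intro h
        apply ht
        rw [← tl_cs (m * e - W e t) t, h, tl_single]
      · rw [map_zero, Finsupp.zero_apply, abs_zero]
        exact_mod_cast Nat.zero_le H
  · rintro G ⟨⟨hG, _⟩, _⟩ G' ⟨⟨hG', _⟩, _⟩ h
    ext s
    rw [coeff_of_dhW G hG, coeff_of_dhW G' hG', h]
  · rintro f ⟨hf, h1, hc⟩
    obtain ⟨G, hGdef⟩ : ∃ G : MvPolynomial (Option (Fin (n + 1))) O, G =
        ∑ t ∈ f.support, monomial (cs (m * e - W e t) t) (f.coeff t) := ⟨_, rfl⟩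
    have hG : G.IsWeightedHomogeneous (wt e) (m * e) := by
      rw [hGdef]
      refine (weightedHomogeneousSubmodule O (wt e) (m * e)).sum_mem fun t ht => ?_
      rw [mem_weightedHomogeneousSubmodule]
      refine isWeightedHomogeneous_monomial _ _ _ ?_
      rw [weight_tl, tl_cs, cs_zero]
      have : W e t ≤ m * e := hf t (mem_support_iff.1 ht)
      omega
    have hdh : dhW G = f := by
      rw [hGdef, dhW_sum]
      conv_rhs => rw [← support_sum_monomial_coeff f]
      refine Finset.sum_congr rfl fun t _ => ?_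
      rw [dhW_monomial, tl_cs]
    refine ⟨G, ⟨⟨hG, ?_⟩, fun s hs i => ?_⟩, hdh⟩
    · rw [coeff_of_dhW G hG, hdh, tl_single, if_pos, h1]
      rw [weight_tl, tl_single, W_single, Finsupp.single_eq_of_ne (by simp), add_zero]
    · rw [coeff_of_dhW G hG, hdh]
      split_ifs with hw
      · apply hc
        intro h
        apply hs
        rw [weight_tl, h, W_single] at hw
        have h0 : s (some 0) = 0 := by omega
        rw [← cs_tl s, h0, h, cs_single]
      · rw [map_zero, Finsupp.zero_apply, abs_zero]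
        exact_mod_cast Nat.zero_le H

end Pool.Agent.K3h87.NW
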